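import Pool.Agent.Run7.h538.OsaPf

set_option autoImplicit false

/-! MP_d12cfa_co, the Pfaffian identity to which Q1 is equivalent.

`genFun` is the power series `(y - x) / ((1 - x y) (1 - x - y))`, `cc a b` is its coefficient of
`x ^ a y ^ b`, `arr n w` is the skew-symmetric matrix with rows and columns `0, ..., 2n+1`, entry
`cc a b` for `a, b ≤ 2n` and last column `w 0, ..., w (2n)`, and `pf` is the Pfaffian (expansion
along the first row).

Proof: the substitution `x ↦ 1 - x`, `y ↦ 1 - y` changes the sign of the form `cc`. So the
Pfaffian with last column `t ^ a` equals the Pfaffian with last column `(1 - t) ^ a`, and `t = -1`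
gives the identity. -/

namespace Pool.Agent.Results.MP_d12cfa_co.PfaffianIdentity

open Run7.h538.Osa Pool.Agent.Helper929

/-- The Pfaffian of the array with last column `(-1) ^ a` equals the Pfaffian of the array with
last column `((-1) ^ a + 2 ^ a) / 2`; more generally the last columns `t ^ a` and `(1 - t) ^ a`
give the same Pfaffian. -/
theorem result (n : ℕ) :
    pf (2 * n + 2) (arr n (fun a => (-1) ^ a)) =
        pf (2 * n + 2) (arr n (fun a => ((-1) ^ a + 2 ^ a) / 2)) ∧
      ∀ t : ℚ, pf (2 * n + 2) (arr n (fun a => t ^ a)) =
        pf (2 * n + 2) (arr n (fun a => (1 - t) ^ a)) :=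
  ⟨pf_identity n, fun t => (pf_pow n t).symm⟩

end Pool.Agent.Results.MP_d12cfa_co.PfaffianIdentity
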